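import Pool.Agent.Helper11.M3.GoalsA
import Pool.Agent.Helper22.PP.POMG

/-!
# Project M3, goal A_NZO
-/

set_option autoImplicit false

namespace Pool.Agent.Helper15.M3

open Polynomial Module Pool.Agent.Helper11.M3 Pool.Agent.Helper42.PP Pool.Agent.Helper42.PP1

/-- If `P` is linear then every element of `AdjoinRoot P` is a constant. -/
theorem linear_const {p : ℕ} [Fact p.Prime] {P : (ZMod p)[X]} [hP : Fact (Irreducible P)]
    (hd : P.natDegree = 1) (z : AdjoinRoot P) :
    ∃ a : ZMod p, z = algebraMap (ZMod p) (AdjoinRoot P) a := by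
  obtain ⟨f, rfl⟩ := AdjoinRoot.mk_surjective z
  have hP0 : P ≠ 0 := hP.out.ne_zero
  have h1 : AdjoinRoot.mk P f = AdjoinRoot.mk P (f % P) := by
    rw [AdjoinRoot.mk_eq_mk]
    exact ⟨f / P, by rw [EuclideanDomain.mod_eq_sub_mul_div]; ring⟩
  have h2 : (f % P).natDegree = 0 := by
    have := Polynomial.natDegree_mod_lt f (q := P) (by rw [hd]; norm_num)
    omega
  obtain ⟨a, ha⟩ := Polynomial.natDegree_eq_zero.1 h2
  refine ⟨a, ?_⟩
  rw [h1, ← ha]
  rfl

theorem root_pow_one {p : ℕ} [Fact p.Prime] {P : (ZMod p)[X]} {m : ℕ} (h : P ∣ X ^ m - 1) :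
    AdjoinRoot.root P ^ m = 1 := by
  have h1 : AdjoinRoot.mk P (X ^ m - 1) = 0 := AdjoinRoot.mk_eq_zero.2 h
  rw [map_sub, map_pow, map_one, AdjoinRoot.mk_X, sub_eq_zero] at h1
  exact h1

theorem a_nzo : Pool.Agent.Helper11.M3.A_NZO := by
  intro p _ K M K₁ M₁ _ _ _ _ _ _ _ _ _ _ _ _ _ ε δ P hP hs ho tr htr
  have hst1 := hs.st1
  have hst2 := hs.st2
  have hgM := hs.gM
  have hgK := hs.gK
  have hgMK := hs.gMK
  have hconst := linear_const (p := p) (P := P) ho.deg
  have htrc : ∀ a : ZMod p, tr (algebraMap (ZMod p) (AdjoinRoot P) a) = a * tr 1 := by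
    intro a
    rw [Algebra.algebraMap_eq_smul_one, map_smul, smul_eq_mul]
  have htr1 : tr 1 ≠ 0 := by
    intro h
    apply htr
    ext z
    obtain ⟨a, rfl⟩ := hconst z
    rw [htrc, h, mul_zero, LinearMap.zero_apply]
  have hinj : ∀ z : AdjoinRoot P, tr z = 0 → z = 0 := by
    intro z hz
    obtain ⟨a, rfl⟩ := hconst z
    rw [htrc] at hz
    rcases mul_eq_zero.1 hz with h | h
    · rw [h, map_zero]
    · exact absurd h htr1
  have hξ : AdjoinRoot.root P ^ finrank K M = 1 := root_pow_one hs.dvdP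
  have hm0 : 0 < finrank K M := by
    have := hs.ord
    exact finrank_pos
  have hn1 : nsig p ε (1 : K₁ ≃ₐ[K] K₁) = 1 := Pool.Agent.Helper22.PP.nsig_one hs.prim
  refine ⟨hinj, hconst, ?_, ?_⟩
  · intro η γ hne
    refine ⟨1, 0, 1, hm0, fun y => by simp, fun y => by simp, ?_⟩
    rw [hn1, Nat.sub_zero, hξ]
    simpa using hne
  · intro hξ1 η' γ hor
    by_cases hv : tr η' + γ = 0
    · -- use an extension of `δ`
      have hm1 : 1 < finrank K M := by
        by_contra hcon
        have : finrank K M = 1 := by omega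
        rw [this, pow_one] at hξ
        exact hξ1 hξ
      set g : M₁ ≃ₐ[K] M₁ := AlgEquiv.liftNormal δ M₁ with hg
      have hgM' : ∀ y : M, g (algebraMap M M₁ y) = algebraMap M M₁ ((δ ^ 1) y) := by
        intro y
        rw [pow_one]
        exact AlgEquiv.liftNormal_commutes δ M₁ y
      have hgK' : ∀ y : K₁, g (algebraMap K₁ M₁ y) = algebraMap K₁ M₁ (g.restrictNormal K₁ y) :=
        fun y => (AlgEquiv.restrictNormal_commutes g K₁ y).symm
      have hrel := ho.rel g 1 (g.restrictNormal K₁) hgM' hgK'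
      rw [pow_one] at hrel
      refine ⟨g, 1, g.restrictNormal K₁, hm1, hgM', hgK', ?_⟩
      set c : ZMod p := nsig p ε (g.restrictNormal K₁) with hc
      have hc0 : c ≠ 0 := Pool.Agent.Helper22.PP.nsig_ne hs.prim _
      have hc1 : c ≠ 1 := by
        intro h
        apply hξ1
        rw [hrel, h, map_one]
      have htrm : tr (η' * AdjoinRoot.root P ^ 1) = c * tr η' := by
        rw [pow_one, hrel, mul_comm, ← Algebra.smul_def, map_smul, smul_eq_mul]
      rw [zero_mul, map_zero, zero_add, htrm, ← mul_assoc, inv_mul_cancel₀ hc0, one_mul, add_zero]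
      intro h2
      have h3 : γ * (c⁻¹ - 1) = 0 := by linear_combination h2 - hv
      rcases mul_eq_zero.1 h3 with h | h
      · rw [h, add_zero] at hv
        rcases hor with h4 | h4
        · exact h4 (hinj _ hv)
        · exact h4 h
      · apply hc1
        rw [sub_eq_zero] at h
        exact inv_eq_one.1 h
    · refine ⟨1, 0, 1, hm0, fun y => by simp, fun y => by simp, ?_⟩
      rw [hn1]
      simpa using hv

end Pool.Agent.Helper15.M3
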